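import Mathlib
import Pool.Agent.Lib.MP_7a9645_co.Basic

/-!
# The maximum size of a zero-`h`-sum-free set in `ℤ/n`

For all positive integers `n`, `h`, the largest size of a set `A ⊆ ℤ/n` with `0 ∉ hA` is
`v_h(n,h) = max_{d ∣ n} (⌊(d - 1 - gcd(d,h))/h⌋ + 1) · n/d`.
-/

open Finset Pointwise
open Pool.Agent.Lib.MP_7a9645_co

namespace Pool.Agent.Results.MP_7a9645_co.TauEqV

/-- The function `v_g(n,h) = max_{d ∣ n} (⌊(d - 1 - gcd(d,g))/h⌋ + 1) · n/d` (for `h ≥ 1` the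
factor in brackets is never negative, so `toNat` changes nothing). -/
def v (g n h : ℕ) : ℕ :=
  n.divisors.sup fun d => (⌊((d : ℚ) - 1 - (Nat.gcd d g : ℚ)) / (h : ℚ)⌋ + 1).toNat * (n / d)

lemma floor_eq (d g h : ℕ) :
    ⌊((d : ℚ) - 1 - (Nat.gcd d g : ℚ)) / (h : ℚ)⌋ = ((d : ℤ) - 1 - (Nat.gcd d g : ℤ)) / (h : ℤ) := by
  have := Rat.floor_intCast_div_natCast ((d : ℤ) - 1 - (Nat.gcd d g : ℤ)) h
  push_cast at this
  exact this

/-- For all positive integers `n` and `h`, the maximum size of a subset `A` of `ℤ/n` such that no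
`h` (not necessarily distinct) elements of `A` sum to `0` is exactly `v_h(n,h)`. -/
theorem result (n h : ℕ) (hn : 0 < n) (hh : 0 < h) :
    IsGreatest {k : ℕ | ∃ A : Finset (ZMod n), A.card = k ∧
      ∀ a : Fin h → ZMod n, (∀ i, a i ∈ A) → ∑ i, a i ≠ 0} (v h n h) := by
  have hhZ : (0 : ℤ) < h := by exact_mod_cast hh
  constructor
  · -- attained
    have hne : n.divisors.Nonempty := ⟨1, by rw [Nat.mem_divisors]; exact ⟨one_dvd _, by omega⟩⟩
    obtain ⟨d, hd, hdv⟩ := Finset.exists_mem_eq_sup n.divisors hne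
      (fun d : ℕ => (⌊((d : ℚ) - 1 - (Nat.gcd d h : ℚ)) / (h : ℚ)⌋ + 1).toNat * (n / d))
    have hdn : d ∣ n := Nat.dvd_of_mem_divisors hd
    rw [floor_eq] at hdv
    show ∃ A : Finset (ZMod n), A.card = v h n h ∧ _
    unfold v
    rw [hdv]
    set L := ((((d : ℤ) - 1 - (Nat.gcd d h : ℤ)) / (h : ℤ)) + 1).toNat with hL
    rcases Nat.eq_zero_or_pos L with h0 | hpos
    · refine ⟨∅, by rw [h0]; simp, ?_⟩
      intro a ha _
      exact absurd (ha ⟨0, hh⟩) (Finset.notMem_empty _)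
    · refine lower hn hh hdn hpos ?_
      have h1 : (L : ℤ) = ((d : ℤ) - 1 - (Nat.gcd d h : ℤ)) / (h : ℤ) + 1 := by
        rw [hL]
        apply Int.toNat_of_nonneg
        omega
      have h2 : (h : ℤ) * (((d : ℤ) - 1 - (Nat.gcd d h : ℤ)) / (h : ℤ)) ≤
          (d : ℤ) - 1 - (Nat.gcd d h : ℤ) := Int.mul_ediv_self_le (by omega)
      have h3 : ((L - 1 : ℕ) : ℤ) = ((d : ℤ) - 1 - (Nat.gcd d h : ℤ)) / (h : ℤ) := by
        omega
      rw [← h3] at h2
      have h4 : ((h * (L - 1) + 1 + Nat.gcd d h : ℕ) : ℤ) ≤ d := by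
        push_cast
        omega
      exact_mod_cast h4
  · -- upper bound
    rintro k ⟨A, rfl, hA⟩
    rcases A.eq_empty_or_nonempty with he | hne
    · rw [he]; simp
    have hc : ((0 : ℤ) : ZMod n) ∉ hs A h := by
      intro hmem
      obtain ⟨f, hf, hf0⟩ := exists_of_mem_hs h hmem
      rw [Int.cast_zero] at hf0
      exact hA f hf hf0
    obtain ⟨D, L, hD, hL, hDL, hk⟩ := P_all n hn h 0 A hh hne hc
    have hDpos : 0 < D := Nat.pos_of_dvd_of_pos hD hn
    rw [Int.gcd_zero_left, Int.natAbs_natCast] at hDL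
    have hmem : D ∈ n.divisors := by rw [Nat.mem_divisors]; exact ⟨hD, by omega⟩
    refine le_trans ?_ (Finset.le_sup
      (f := fun d : ℕ => (⌊((d : ℚ) - 1 - (Nat.gcd d h : ℚ)) / (h : ℚ)⌋ + 1).toNat * (n / d)) hmem)
    rw [floor_eq]
    have h1 : (L : ℤ) - 1 ≤ ((D : ℤ) - 1 - (Nat.gcd D h : ℤ)) / (h : ℤ) := by
      rw [Int.le_ediv_iff_mul_le hhZ]
      have h2 : ((h * (L - 1) + 1 + Nat.gcd D h : ℕ) : ℤ) ≤ D := by exact_mod_cast hDL
      push_cast [Nat.cast_sub hL] at h2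
      linarith
    have h2 : L ≤ ((((D : ℤ) - 1 - (Nat.gcd D h : ℤ)) / (h : ℤ)) + 1).toNat := by
      omega
    obtain ⟨E, hE⟩ := hD
    have hnD : n / D = E := by rw [hE]; exact Nat.mul_div_cancel_left _ hDpos
    rw [hnD]
    have h3 : A.card ≤ L * E := by
      have h4 : D * A.card ≤ D * (L * E) := by
        calc D * A.card = A.card * D := by ring
          _ ≤ L * n := hk
          _ = D * (L * E) := by rw [hE]; ring
      exact Nat.le_of_mul_le_mul_left h4 hDpos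
    exact h3.trans (Nat.mul_le_mul_right _ h2)

end Pool.Agent.Results.MP_7a9645_co.TauEqV
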